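import Mathlib
import Pool.Prelude.Def_F_72ad9e24
import Pool.Agent.L0h61.LA.AQ
import Pool.Agent.H95R2.Leh.Congr

/-!
# Composite `n` with `φ(n) ∣ n - a(n)` in arithmetic progressions

Every residue class `c` modulo `q` contains at most `1 + C √(g y log (x + y + 1) / q)` composite integers
`n > 4` with `φ(n) ∣ n - a(n)` in the interval `(x, x + y]`, where `g = gcd (c (c - 1), q)`, and at most
`1 + C √(g y K / q)` with at most `K` prime factors. All is uniform in `q`, `c`, `x` and `y`: an arithmetic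
progression with `N` terms and with `g = 1` contains at most `1 + C √(N log X)` of these integers,
whatever its difference and its first term are (`X` is the last term). For `q = 1` this is the starting result
`ShortIntervals`.

The factor `g` appears because for a divisor `d` of `n` the number `d φ(d)` can have a factor in common with
`q`; this factor divides `n (n - 1)` and hence `c (c - 1)`. If `q` is a prime number then `g = q` for the classes
of `0` and `1`; for all classes modulo a prime number `q`, these two included, there is the bound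
`1 + C √(y / q) log (x + y + 1)`: the divisors `d` of size about `√(y / q)` for which `q` divides `d φ(d)` are
multiples of `q` or of a prime number `1 + q j`, and there are few of them.
-/

set_option autoImplicit false

namespace Pool.Agent.Results.MP_b50d59_nt.ArithmeticProgressions

open Finset
open Pool.Agent.H95R2.Leh

/-- the number of the prime factors -/
lemma card_bound (x y : ℕ) (hy : 1 ≤ y) : ∃ K : ℕ, 1 ≤ K ∧
    (K : ℝ) ≤ 4 * Real.log ((x : ℝ) + y + 1) ∧
    ∀ n : ℕ, 0 < n → n ≤ x + y → n.primeFactors.card ≤ K := by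
  have hyR : (1 : ℝ) ≤ y := by exact_mod_cast hy
  have hxR : (0 : ℝ) ≤ x := Nat.cast_nonneg x
  have hl2 := Real.log_two_gt_d9
  have hl2p : 0 < Real.log 2 := by linarith
  obtain ⟨K, hKd⟩ : ∃ K : ℕ, K = ⌊Real.log ((x : ℝ) + y) / Real.log 2⌋₊ + 1 := ⟨_, rfl⟩
  have hlog0 : 0 ≤ Real.log ((x : ℝ) + y) := Real.log_nonneg (by linarith)
  have hlog1 : Real.log ((x : ℝ) + y) ≤ Real.log ((x : ℝ) + y + 1) :=
    Real.log_le_log (by linarith) (by linarith)
  have hlog2 : Real.log 2 ≤ Real.log ((x : ℝ) + y + 1) := Real.log_le_log (by norm_num) (by linarith)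
  refine ⟨K, by omega, ?_, ?_⟩
  · have h1 : (K : ℝ) ≤ Real.log ((x : ℝ) + y) / Real.log 2 + 1 := by
      rw [hKd]
      push_cast
      have := Nat.floor_le (div_nonneg hlog0 hl2p.le)
      linarith
    have h2 : Real.log ((x : ℝ) + y) / Real.log 2 ≤ 3 / 2 * Real.log ((x : ℝ) + y + 1) := by
      rw [div_le_iff₀ hl2p]
      nlinarith
    linarith
  · intro n hn0 hnx
    have h2 := Tot.card_le n hn0
    have hnx' : (n : ℝ) ≤ x + y := by exact_mod_cast hnx
    have hn0' : (0 : ℝ) < n := by exact_mod_cast hn0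
    have h3 : Real.log n ≤ Real.log ((x : ℝ) + y) := Real.log_le_log hn0' hnx'
    have h4 : (n.primeFactors.card : ℝ) ≤ Real.log ((x : ℝ) + y) / Real.log 2 := by
      rw [le_div_iff₀ hl2p]
      linarith
    have h5 : n.primeFactors.card ≤ ⌊Real.log ((x : ℝ) + y) / Real.log 2⌋₊ := Nat.le_floor h4
    omega

open Classical in
/-- There is `C` such that for all `x`, `y`, `c`, `q ≥ 1` and `g = gcd (c (c - 1), q)` the class of `c`
modulo `q` contains at most `1 + C √(g y log (x + y + 1) / q)` composite integers `n > 4` in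
`(x, x + y]` with `φ(n) ∣ n - a(n)`, and for every `K ≥ 1` at most `1 + C √(g y K / q)` of them with at
most `K` prime factors; and if `q` is a prime number then each class, also that of `0` and that of `1`,
contains at most `1 + C log (x + y + 1) √(y / q)` of them. Here `a(n)` is the largest exponent in the prime
factorisation of `n`. -/
theorem result : ∃ C : ℝ, 0 < C ∧
    (∀ x y q c : ℕ, 1 ≤ q →
      (((Ioc x (x + y)).filter (fun n : ℕ => n ≡ c [MOD q] ∧
        4 < n ∧ ¬ n.Prime ∧ n.totient ∣ (n - Nca8c8b9b.a n))).card : ℝ) ≤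
      1 + C * Real.sqrt ((Nat.gcd (c * (c - 1)) q : ℕ) * (y : ℝ) *
        Real.log ((x : ℝ) + y + 1) / q)) ∧
    (∀ x y q c K : ℕ, 1 ≤ q → 1 ≤ K →
      (((Ioc x (x + y)).filter (fun n : ℕ => n ≡ c [MOD q] ∧
        4 < n ∧ ¬ n.Prime ∧ n.totient ∣ (n - Nca8c8b9b.a n) ∧ n.primeFactors.card ≤ K)).card : ℝ) ≤
      1 + C * Real.sqrt ((Nat.gcd (c * (c - 1)) q : ℕ) * (y : ℝ) * K / q)) ∧
    ∀ x y q c : ℕ, q.Prime →
      (((Ioc x (x + y)).filter (fun n : ℕ => n ≡ c [MOD q] ∧
        4 < n ∧ ¬ n.Prime ∧ n.totient ∣ (n - Nca8c8b9b.a n))).card : ℝ) ≤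
      1 + C * (Real.log ((x : ℝ) + y + 1) * Real.sqrt ((y : ℝ) / q)) := by
  obtain ⟨C, hC, h⟩ := Pool.Agent.L0h61.LA.prog
  obtain ⟨C₂, hC₂, h₂⟩ := Pool.Agent.L0h61.LA.prime_classes
  have hK : ∀ x y q c K : ℕ, 1 ≤ q → 1 ≤ K →
      (((Ioc x (x + y)).filter (fun n : ℕ => n ≡ c [MOD q] ∧
        4 < n ∧ ¬ n.Prime ∧ n.totient ∣ (n - Nca8c8b9b.a n) ∧ n.primeFactors.card ≤ K)).card : ℝ) ≤
      1 + C * Real.sqrt ((Nat.gcd (c * (c - 1)) q : ℕ) * (y : ℝ) * K / q) := by
    intro x y q c K hq hK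
    refine le_trans ?_ (h x y q c K hq hK)
    apply Nat.cast_le.2
    apply card_le_card
    intro n hn
    rw [mem_filter] at hn ⊢
    exact ⟨hn.1, hn.2.1, leh_of_congr hn.2.2.1 hn.2.2.2.1 hn.2.2.2.2.1, hn.2.2.2.2.2⟩
  have hK₂ : ∀ x y q c K : ℕ, q.Prime → 1 ≤ K →
      (((Ioc x (x + y)).filter (fun n : ℕ => n ≡ c [MOD q] ∧
        4 < n ∧ ¬ n.Prime ∧ n.totient ∣ (n - Nca8c8b9b.a n) ∧ n.primeFactors.card ≤ K)).card : ℝ) ≤
      1 + C₂ * Real.sqrt ((y : ℝ) * K * (3 + Real.log ((y : ℝ) * K + 1)) / q) := by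
    intro x y q c K hq hK
    refine le_trans ?_ (h₂ x y q c K hq hK)
    apply Nat.cast_le.2
    apply card_le_card
    intro n hn
    rw [mem_filter] at hn ⊢
    exact ⟨hn.1, hn.2.1, leh_of_congr hn.2.2.1 hn.2.2.2.1 hn.2.2.2.2.1, hn.2.2.2.2.2⟩
  have hsub : ∀ x y q c K : ℕ, (∀ n : ℕ, 0 < n → n ≤ x + y → n.primeFactors.card ≤ K) →
      (((Ioc x (x + y)).filter (fun n : ℕ => n ≡ c [MOD q] ∧
        4 < n ∧ ¬ n.Prime ∧ n.totient ∣ (n - Nca8c8b9b.a n))).card : ℝ) ≤
      (((Ioc x (x + y)).filter (fun n : ℕ => n ≡ c [MOD q] ∧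
        4 < n ∧ ¬ n.Prime ∧ n.totient ∣ (n - Nca8c8b9b.a n) ∧ n.primeFactors.card ≤ K)).card : ℝ) := by
    intro x y q c K hb
    apply Nat.cast_le.2
    apply card_le_card
    intro n hn
    rw [mem_filter] at hn ⊢
    have hn4 := hn.2.2.1
    exact ⟨hn.1, hn.2.1, hn.2.2.1, hn.2.2.2.1, hn.2.2.2.2,
      hb n (by omega) (mem_Ioc.1 hn.1).2⟩
  refine ⟨2 * C + 8 * C₂, by linarith, ?_, ?_, ?_⟩
  · intro x y q c hq
    have hqR : (1 : ℝ) ≤ q := by exact_mod_cast hq
    rcases Nat.eq_zero_or_pos y with hy0 | hy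
    · subst hy0
      simp
    obtain ⟨K, hK1, hKle, hKb⟩ := card_bound x y hy
    have hyR : (1 : ℝ) ≤ y := by exact_mod_cast hy
    have hxR : (0 : ℝ) ≤ x := Nat.cast_nonneg x
    set g : ℝ := ((Nat.gcd (c * (c - 1)) q : ℕ) : ℝ) with hg
    have hg0 : 0 ≤ g := Nat.cast_nonneg _
    have hlog : 0 ≤ Real.log ((x : ℝ) + y + 1) := Real.log_nonneg (by linarith)
    calc (((Ioc x (x + y)).filter (fun n : ℕ => n ≡ c [MOD q] ∧
        4 < n ∧ ¬ n.Prime ∧ n.totient ∣ (n - Nca8c8b9b.a n))).card : ℝ) ≤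
        (((Ioc x (x + y)).filter (fun n : ℕ => n ≡ c [MOD q] ∧
        4 < n ∧ ¬ n.Prime ∧ n.totient ∣ (n - Nca8c8b9b.a n) ∧ n.primeFactors.card ≤ K)).card : ℝ) :=
          hsub x y q c K hKb
      _ ≤ 1 + C * Real.sqrt (g * (y : ℝ) * K / q) := hK x y q c K hq hK1
      _ ≤ 1 + C * Real.sqrt (2 ^ 2 * (g * (y : ℝ) * Real.log ((x : ℝ) + y + 1) / q)) := by
          have h2 : g * (y : ℝ) * K / q ≤ 2 ^ 2 * (g * (y : ℝ) * Real.log ((x : ℝ) + y + 1) / q) := by
            rw [← mul_div_assoc]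
            apply div_le_div_of_nonneg_right _ (by linarith)
            have := mul_le_mul_of_nonneg_left hKle (by positivity : 0 ≤ g * (y : ℝ))
            linarith
          have h3 := Real.sqrt_le_sqrt h2
          have h4 := mul_le_mul_of_nonneg_left h3 (by linarith : 0 ≤ C)
          linarith
      _ = 1 + 2 * C * Real.sqrt (g * (y : ℝ) * Real.log ((x : ℝ) + y + 1) / q) := by
          rw [Real.sqrt_mul (by positivity), Real.sqrt_sq (by norm_num)]
          ring
      _ ≤ 1 + (2 * C + 8 * C₂) * Real.sqrt (g * (y : ℝ) * Real.log ((x : ℝ) + y + 1) / q) := by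
          have := mul_nonneg (by linarith : (0 : ℝ) ≤ 8 * C₂)
            (Real.sqrt_nonneg (g * (y : ℝ) * Real.log ((x : ℝ) + y + 1) / q))
          linarith
  · intro x y q c K hq hK1
    have h1 := hK x y q c K hq hK1
    have h2 := mul_nonneg (by linarith : (0 : ℝ) ≤ C + 8 * C₂)
      (Real.sqrt_nonneg ((Nat.gcd (c * (c - 1)) q : ℕ) * (y : ℝ) * K / q))
    linarith
  · intro x y q c hq
    have hqR : (1 : ℝ) ≤ q := by exact_mod_cast hq.one_le
    rcases Nat.eq_zero_or_pos y with hy0 | hy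
    · subst hy0
      simp
    obtain ⟨K, hK1, hKle, hKb⟩ := card_bound x y hy
    have hyR : (1 : ℝ) ≤ y := by exact_mod_cast hy
    have hxR : (0 : ℝ) ≤ x := Nat.cast_nonneg x
    have hKR : (1 : ℝ) ≤ K := by exact_mod_cast hK1
    obtain ⟨l, hl⟩ : ∃ l : ℝ, l = Real.log ((x : ℝ) + y + 1) := ⟨_, rfl⟩
    rw [← hl] at hKle ⊢
    have hl1 : 1 / 4 ≤ l := by linarith
    have hl2 := Real.log_two_gt_d9
    have hl3 : Real.log 2 ≤ l := by
      rw [hl]
      exact Real.log_le_log (by norm_num) (by linarith)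
    have hly : Real.log ((y : ℝ) + 1) ≤ l := by
      rw [hl]
      exact Real.log_le_log (by linarith) (by linarith)
    have hlK : Real.log (K : ℝ) ≤ 4 * l - 1 := by
      have := Real.log_le_sub_one_of_pos (show 0 < (K : ℝ) by linarith)
      linarith
    have hlyK : Real.log ((y : ℝ) * K + 1) ≤ 5 * l - 1 := by
      have h1 : (y : ℝ) * K + 1 ≤ (y + 1) * K := by nlinarith
      have h2 : Real.log ((y : ℝ) * K + 1) ≤ Real.log (((y : ℝ) + 1) * K) :=
        Real.log_le_log (by positivity) h1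
      rw [Real.log_mul (by positivity) (by positivity)] at h2
      linarith
    have hL : 3 + Real.log ((y : ℝ) * K + 1) ≤ 16 * l := by nlinarith
    have hlog0 : 0 ≤ Real.log ((y : ℝ) * K + 1) := Real.log_nonneg (by
      have : 0 ≤ (y : ℝ) * K := by positivity
      linarith)
    calc (((Ioc x (x + y)).filter (fun n : ℕ => n ≡ c [MOD q] ∧
        4 < n ∧ ¬ n.Prime ∧ n.totient ∣ (n - Nca8c8b9b.a n))).card : ℝ) ≤
        (((Ioc x (x + y)).filter (fun n : ℕ => n ≡ c [MOD q] ∧
        4 < n ∧ ¬ n.Prime ∧ n.totient ∣ (n - Nca8c8b9b.a n) ∧ n.primeFactors.card ≤ K)).card : ℝ) :=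
          hsub x y q c K hKb
      _ ≤ 1 + C₂ * Real.sqrt ((y : ℝ) * K * (3 + Real.log ((y : ℝ) * K + 1)) / q) :=
          hK₂ x y q c K hq hK1
      _ ≤ 1 + C₂ * Real.sqrt ((8 * l) ^ 2 * ((y : ℝ) / q)) := by
          have h2 : (y : ℝ) * K * (3 + Real.log ((y : ℝ) * K + 1)) / q ≤
              (8 * l) ^ 2 * ((y : ℝ) / q) := by
            rw [← mul_div_assoc]
            apply div_le_div_of_nonneg_right _ (by linarith)
            have h3 : (K : ℝ) * (3 + Real.log ((y : ℝ) * K + 1)) ≤ (4 * l) * (16 * l) :=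
              mul_le_mul hKle hL (by linarith) (by linarith)
            have h4 := mul_le_mul_of_nonneg_left h3 (by linarith : (0 : ℝ) ≤ y)
            nlinarith
          have h3 := Real.sqrt_le_sqrt h2
          have h4 := mul_le_mul_of_nonneg_left h3 (by linarith : 0 ≤ C₂)
          linarith
      _ = 1 + 8 * C₂ * (l * Real.sqrt ((y : ℝ) / q)) := by
          rw [Real.sqrt_mul (by positivity), Real.sqrt_sq (by linarith)]
          ring
      _ ≤ 1 + (2 * C + 8 * C₂) * (l * Real.sqrt ((y : ℝ) / q)) := by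
          have := mul_nonneg (by linarith : (0 : ℝ) ≤ 2 * C)
            (mul_nonneg (by linarith : (0 : ℝ) ≤ l) (Real.sqrt_nonneg ((y : ℝ) / q)))
          linarith

end Pool.Agent.Results.MP_b50d59_nt.ArithmeticProgressions
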