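import Mathlib
import Pool.Prelude.Def_F_72ad9e24
import Pool.Agent.L0h94.LT.Fin
import Pool.Agent.H95R2.Leh.Congr

/-!
# Composite `n` with `φ(n) ∣ n - a(n)` in thin sets which are closed under divisors

The question is whether there is a composite integer `n > 4` such that `φ(n) ∣ n - a(n)`, where `a(n)` is the
largest exponent in the prime factorisation of `n`. The number of these integers up to `x` is known to be at most
`x ^ (1/2 + o(1))`. Here it is proved that among the members of a set `S` of dimension `α ≤ 1` which contains the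
divisors of its members there are at most `x ^ (α/2 + o(1))` of them up to `x`, with an absolute constant, in short
intervals and in all residue classes `a` modulo `q` with `gcd(a (a - 1), q) = 1`.

Examples: the integers composed of the primes of a set with at most `C t ^ α` members up to `t` (the exponent is
`α / 2 + ε`), and the integers without prime factors greater than `(log x) ^ κ` (the exponent is
`(1 - 1/κ) / 2 + ε`).

Proof: an integer `n` of this kind has a divisor in every interval `(z / (16 K), z]`, `1 ≤ z ≤ n`, where `K` is the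
number of its prime factors (start library `H95R2.Leh`), this divisor `d` is in `S`, and `n` is in one class modulo
`q d φ(d)`.
-/

set_option autoImplicit false

namespace Pool.Agent.Results.MP_b50d59_nt.DivisorClosedSets

open Finset
open scoped Classical

/-- `n > 4` is composite and `φ(n) ∣ n - a(n)`. -/
def Exceptional (n : ℕ) : Prop := 4 < n ∧ ¬ n.Prime ∧ n.totient ∣ (n - Nca8c8b9b.a n)

/-- `S` contains the divisors of its members and has at most `B t ^ α` members `n`, `1 ≤ n ≤ t`, for all `t ≥ 1`. -/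
structure Thin (S : Set ℕ) (α B : ℝ) : Prop where
  closed : ∀ n ∈ S, ∀ d : ℕ, d ∣ n → d ∈ S
  count : ∀ t : ℕ, 1 ≤ t → (((Icc 1 t).filter fun n => n ∈ S).card : ℝ) ≤ B * (t : ℝ) ^ α

theorem leh {n : ℕ} (h : Exceptional n) : Pool.Agent.H95R2.Leh.Leh n :=
  Pool.Agent.H95R2.Leh.leh_of_congr h.1 h.2.1 h.2.2

/-- **Theorem.** (1) Let `S` contain the divisors of its members, with at most `B t ^ α` members up to `t`, where
`0 ≤ α ≤ 1`, and let `a (a - 1)` be prime to `q ≥ 1`. Then for all `x` and `y ≥ 1` the interval `(x, x + y]` contains at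
most `4112 B ((y/q + 1) (log (x + y + 1))³) ^ (α/2)` composite integers `n > 4` with `φ(n) ∣ n - a(n)` which are in `S`
and congruent to `a` modulo `q`, and at most `514 B ((y/q + 1) K³) ^ (α/2)` of them have at most `K` prime factors.
(2) Let `P` be a set with at most `C₀ t ^ α` primes up to `t`, for all `t ≥ 1`. Then for every `ε > 0` the number of the
composite `n` with `4 < n ≤ x` and `φ(n) ∣ n - a(n)` all of whose prime factors are in `P` is at most
`C x ^ (α/2 + ε)`. (3) Let `κ ≥ 1`. For every `ε > 0` the number of those without prime factors greater than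
`(log x) ^ κ` is at most `C x ^ ((1 - 1/κ)/2 + ε)`. -/
theorem result :
    (∀ (S : Set ℕ) (α B : ℝ), 0 ≤ α → α ≤ 1 → Thin S α B →
      ∀ (q : ℕ) (a : ℤ), 1 ≤ q → IsCoprime a (q : ℤ) → IsCoprime (a - 1) (q : ℤ) →
      ∀ x y : ℕ, 1 ≤ y →
        (((Ioc x (x + y)).filter fun n => n ∈ S ∧ Exceptional n ∧ (n : ℤ) ≡ a [ZMOD q]).card : ℝ) ≤
          4112 * B * (((y : ℝ) / q + 1) * Real.log ((x : ℝ) + y + 1) ^ 3) ^ (α / 2) ∧
        ∀ K : ℕ, 1 ≤ K → (((Ioc x (x + y)).filter fun n =>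
          (n ∈ S ∧ Exceptional n ∧ (n : ℤ) ≡ a [ZMOD q]) ∧ n.primeFactors.card ≤ K).card : ℝ) ≤
            514 * B * (((y : ℝ) / q + 1) * (K : ℝ) ^ 3) ^ (α / 2)) ∧
    (∀ (P : Set ℕ) (C₀ α ε : ℝ), 0 ≤ α → 0 < ε →
      (∀ t : ℕ, 1 ≤ t → (((Icc 1 t).filter fun p => p.Prime ∧ p ∈ P).card : ℝ) ≤ C₀ * (t : ℝ) ^ α) →
      ∃ C : ℝ, 0 < C ∧ ∀ x : ℕ, 1 ≤ x →
        (((Icc 1 x).filter fun n => Exceptional n ∧ ∀ p : ℕ, p.Prime → p ∣ n → p ∈ P).card : ℝ) ≤
          C * (x : ℝ) ^ (α / 2 + ε)) ∧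
    (∀ κ ε : ℝ, 1 ≤ κ → 0 < ε → ∃ C : ℝ, 0 < C ∧ ∀ x : ℕ, 1 ≤ x →
      (((Icc 1 x).filter fun n => Exceptional n ∧
        ∀ p : ℕ, p.Prime → p ∣ n → (p : ℝ) ≤ Real.log x ^ κ).card : ℝ) ≤
          C * (x : ℝ) ^ ((1 - 1 / κ) / 2 + ε)) := by
  refine ⟨?_, ?_, ?_⟩
  · intro S α B h0 h1 hS q a hq hqa hqa' x y hy
    constructor
    · refine le_trans ?_ (Pool.Agent.L0h94.LT.thin_log S hS.closed α B h0 h1 hS.count q a hq hqa hqa'
        x y (by omega))
      have h2 : (Ioc x (x + y)).filter (fun n => n ∈ S ∧ Exceptional n ∧ (n : ℤ) ≡ a [ZMOD q]) ⊆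
          (Ioc x (x + y)).filter
            (fun n => n ∈ S ∧ Pool.Agent.H95R2.Leh.Leh n ∧ (n : ℤ) ≡ a [ZMOD q]) := by
        intro n hn
        rw [mem_filter] at hn ⊢
        exact ⟨hn.1, hn.2.1, leh hn.2.2.1, hn.2.2.2⟩
      exact_mod_cast card_le_card h2
    · intro K hK
      refine le_trans ?_ (Pool.Agent.L0h94.LT.thin S hS.closed α B h0 hS.count q a hq hqa hqa' x y K hK)
      have h2 : (Ioc x (x + y)).filter (fun n =>
          (n ∈ S ∧ Exceptional n ∧ (n : ℤ) ≡ a [ZMOD q]) ∧ n.primeFactors.card ≤ K) ⊆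
          (Ioc x (x + y)).filter (fun n =>
            (n ∈ S ∧ Pool.Agent.H95R2.Leh.Leh n ∧ (n : ℤ) ≡ a [ZMOD q]) ∧
              n.primeFactors.card ≤ K) := by
        intro n hn
        rw [mem_filter] at hn ⊢
        exact ⟨hn.1, ⟨hn.2.1.1, leh hn.2.1.2.1, hn.2.1.2.2⟩, hn.2.2⟩
      exact_mod_cast card_le_card h2
  · intro P C₀ α ε hα hε hP
    obtain ⟨C, hC, h⟩ := Pool.Agent.L0h94.LT.primes P C₀ α ε hα hε hP
    refine ⟨C, hC, fun x hx => le_trans ?_ (h x hx)⟩
    have h2 : (Icc 1 x).filter (fun n => Exceptional n ∧ ∀ p : ℕ, p.Prime → p ∣ n → p ∈ P) ⊆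
        (Icc 1 x).filter (fun n => Pool.Agent.H95R2.Leh.Leh n ∧ ∀ p : ℕ, p.Prime → p ∣ n → p ∈ P) := by
      intro n hn
      rw [mem_filter] at hn ⊢
      exact ⟨hn.1, leh hn.2.1, hn.2.2⟩
    exact_mod_cast card_le_card h2
  · intro κ ε hκ hε
    obtain ⟨C, hC, h⟩ := Pool.Agent.L0h94.LT.smooth κ ε hκ hε
    refine ⟨C, hC, fun x hx => le_trans ?_ (h x hx)⟩
    have h2 : (Icc 1 x).filter (fun n => Exceptional n ∧
        ∀ p : ℕ, p.Prime → p ∣ n → (p : ℝ) ≤ Real.log x ^ κ) ⊆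
        (Icc 1 x).filter (fun n => Pool.Agent.H95R2.Leh.Leh n ∧
          ∀ p : ℕ, p.Prime → p ∣ n → (p : ℝ) ≤ Real.log x ^ κ) := by
      intro n hn
      rw [mem_filter] at hn ⊢
      exact ⟨hn.1, leh hn.2.1, hn.2.2⟩
    exact_mod_cast card_le_card h2

end Pool.Agent.Results.MP_b50d59_nt.DivisorClosedSets
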