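import Pool.Agent.L0h43.PL.Fin
import Pool.Agent.H95R2.Leh.Congr

set_option autoImplicit false

/-!
# Polynomial values `n` that are composite with `φ(n) ∣ n - a(n)`: the exponent `μ / (μ + 1)`

For a non-constant integer polynomial `f` such that no complex zero of `f - 1` has multiplicity
larger than `μ`, at most `x^(μ/(μ+1) + ε)` of the values `f(1), ..., f(x)` have this property.
For a polynomial for which `f - 1` has no multiple zero the exponent is `1/2 + ε`.
-/

namespace Pool.Agent.Results.MP_b50d59_nt.PolynomialRootMultiplicity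

open Polynomial

open Classical in
/-- Let `f` be a non-constant polynomial with integer coefficients and let `μ` be such that every
complex zero of `f - 1` has multiplicity at most `μ`.  For every `ε > 0` there is `C` such that for
all `x ≥ 1` there are at most `C x^(μ/(μ+1) + ε)` integers `m` in `[1, x]` for which `f(m)` is a
composite integer `n > 4` with `φ(n) ∣ n - a(n)`, where `a(n)` is the largest exponent in the prime
factorisation of `n`. -/
theorem result (f : ℤ[X]) (hf : 1 ≤ f.natDegree) (μ : ℕ)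
    (hμ : ∀ z : ℂ, ((f - 1).map (Int.castRingHom ℂ)).rootMultiplicity z ≤ μ)
    (ε : ℝ) (hε : 0 < ε) :
    ∃ C : ℝ, 0 < C ∧ ∀ x : ℕ, 1 ≤ x →
      (((Finset.Icc 1 x).filter (fun m : ℕ => ∃ n : ℕ, f.eval (m : ℤ) = n ∧
        4 < n ∧ ¬ n.Prime ∧ n.totient ∣ (n - Nca8c8b9b.a n))).card : ℝ) ≤
      C * (x : ℝ) ^ ((μ : ℝ) / ((μ : ℝ) + 1) + ε) := by
  obtain ⟨C, hC, h⟩ := Pool.Agent.L0h43.PL.count_poly f hf hμ ε hε
  refine ⟨C, hC, fun x hx => h x hx _ ?_⟩
  intro m hm
  rw [Finset.mem_filter] at hm
  obtain ⟨h1, n, h2, h3, h4, h5⟩ := hm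
  exact ⟨h1, n, h2, Pool.Agent.H95R2.Leh.leh_of_congr h3 h4 h5⟩

end Pool.Agent.Results.MP_b50d59_nt.PolynomialRootMultiplicity
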