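import Mathlib
import Pool.Prelude.Def_F_72ad9e24
import Pool.Agent.L0h33.LU.Even

set_option autoImplicit false

/-!
# Lehmer's totient problem in shifted geometric progressions and shifted sets of units

The question is whether there is a composite integer `n > 4` such that `φ(n) ∣ n - a(n)`, where `a(n)` is the
largest exponent in the prime factorisation of `n`. We count the integers of this kind in the very thin sequences
`c a ^ m + b`, `m = 0, 1, 2, …`, and in the sets `{c u + b}`, where `u` runs over the natural numbers composed of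
the primes of a finite set `T` (there are about `C (log X) ^ |T|` of them up to `X`).

Proof: if `n` is such an integer then it is a product of `k` different odd primes, so that `2 ^ k ∣ φ(n) ∣ n - 1`,
and `n ^ 100 < 2 ^ (2 ^ k)` (start library `R330.LT`). So two of these integers `n < n'` are congruent modulo a
power of two which exceeds `100 log₂ n`. If `n` and `n'` are the terms with the indices `m` and `m + k` of a shifted
geometric progression then this forces `k` to be at least proportional to `m`, the constant does not depend on `b`.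
-/

namespace Pool.Agent.Results.MP_b50d59_nt.ShiftedUnits

open Finset

/-- The integer `z` is a composite natural number `n > 4` with `φ(n) ∣ n - a(n)`. -/
def Exceptional (z : ℤ) : Prop :=
  ∃ n : ℕ, (n : ℤ) = z ∧ 4 < n ∧ ¬ n.Prime ∧ n.totient ∣ (n - Nca8c8b9b.a n)

open Classical in
/-- **Theorem.** (1) Let `a ≥ 3` be odd and let `c` be an integer which is not divisible by `2 ^ (v + 1)`. For all
integers `b` and all `x` at most `2 + (2 + 2 ^ v (a ² - 1) / 100) log (x + 1)` of the exponents `m ≤ x` are such that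
`n = c a ^ m + b` is a composite natural number `n > 4` with `φ(n) ∣ n - a(n)`.
(2) Let `T` be a finite set of at least two odd primes, `p ∈ T`, and let `c` be as in (1). For all integers `b` and
all `X ≥ 1` at most `(10 + 2 ^ v (p ² - 1) / 25) (1 + log₂ X) ^ (|T| - 1)` of the `u ≤ X` all of whose prime factors
are in `T` are such that `c u + b` is one of these `n`.
(3) Let `c ≠ 0` and let `b - 1` be not divisible by `2 ^ (β + 1)`. For even `a ≥ 2` there are at most
`β + 1 + 2 ^ (2 ^ β)` exponents `m` such that `c a ^ m + b` is one of these `n`. For every finite set `T` of primes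
with at least two odd members, `p ∈ T` odd, and `X ≥ 1` the number of the `u ≤ X` all of whose prime factors
are in `T` such that `c u + b` is one of these `n` is at most
`2 ^ (2 ^ β) + (β + 1) (10 + 2 ^ β (p ² - 1) / 25) (1 + log₂ X) ^ (|T \ {2}| - 1)`. -/
theorem result :
    (∀ (a v : ℕ) (c b : ℤ), 3 ≤ a → Odd a → ¬ (2 : ℤ) ^ (v + 1) ∣ c → ∀ x : ℕ,
      (((range (x + 1)).filter fun m => Exceptional (c * (a : ℤ) ^ m + b)).card : ℝ) ≤
        2 + (2 + 2 ^ v * ((a : ℝ) ^ 2 - 1) / 100) * Real.log ((x : ℝ) + 1)) ∧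
    (∀ (T : Finset ℕ) (p v : ℕ) (c b : ℤ), (∀ t ∈ T, t.Prime ∧ t ≠ 2) → 2 ≤ T.card → p ∈ T →
      ¬ (2 : ℤ) ^ (v + 1) ∣ c → ∀ X : ℕ, 1 ≤ X →
      (((Icc 1 X).filter fun u : ℕ => u.primeFactors ⊆ T ∧
        Exceptional (c * (u : ℤ) + b)).card : ℝ) ≤
          (10 + 2 ^ v * ((p : ℝ) ^ 2 - 1) / 25) * (1 + Real.logb 2 X) ^ (T.card - 1)) ∧
    (∀ (β : ℕ) (c b : ℤ), c ≠ 0 → ¬ (2 : ℤ) ^ (β + 1) ∣ b - 1 →
      (∀ a : ℕ, 2 ≤ a → Even a → ∀ x : ℕ,
        ((range (x + 1)).filter fun m => Exceptional (c * (a : ℤ) ^ m + b)).card ≤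
          β + 1 + 2 ^ (2 ^ β)) ∧
      (∀ (T : Finset ℕ) (p : ℕ), (∀ t ∈ T, t.Prime) → 2 ≤ (T.erase 2).card → p ∈ T → p ≠ 2 →
        ∀ X : ℕ, 1 ≤ X →
        (((Icc 1 X).filter fun u : ℕ => u.primeFactors ⊆ T ∧
          Exceptional (c * (u : ℤ) + b)).card : ℝ) ≤
            2 ^ (2 ^ β) + (β + 1) * ((10 + 2 ^ β * ((p : ℝ) ^ 2 - 1) / 25) *
              (1 + Real.logb 2 X) ^ ((T.erase 2).card - 1)))) := by
  have hleh : ∀ z : ℤ, Exceptional z → ∃ n : ℕ, Pool.Agent.H95R2.Leh.Leh n ∧ (n : ℤ) = z := by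
    rintro z ⟨n, h1, h2, h3, h4⟩
    exact ⟨n, Pool.Agent.H95R2.Leh.leh_of_congr h2 h3 h4, h1⟩
  have hother : ∀ (S : Finset ℕ) (p : ℕ), 2 ≤ S.card → ∃ q ∈ S, p ≠ q := by
    intro S p hS
    have h1 : ¬ S ⊆ {p} := by
      intro h
      have := card_le_card h
      rw [card_singleton] at this
      omega
    rw [Finset.not_subset] at h1
    obtain ⟨q, hq, hqp⟩ := h1
    exact ⟨q, hq, fun h => hqp (by rw [h]; exact mem_singleton_self _)⟩
  refine ⟨?_, ?_, ?_⟩
  · intro a v c b ha hodd hc x
    have h2a : ¬ 2 ∣ a := by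
      intro h
      exact (Nat.not_even_iff_odd.2 hodd) (even_iff_two_dvd.2 h)
    have h := Pool.Agent.L0h33.LU.count (v := v) (c := c) (b := b) (w := 1) ha h2a hc (by norm_num)
      ((range (x + 1)).filter fun m => Exceptional (c * (a : ℤ) ^ m + b)) (by
        intro m hm
        obtain ⟨n, h1, h2⟩ := hleh _ (mem_filter.1 hm).2
        refine ⟨n, h1, ?_⟩
        rw [h2]
        push_cast
        ring) ((x : ℝ) + 1) (by
        simp) (by
        intro m hm
        have h1 := mem_range.1 (mem_filter.1 hm).1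
        have h2 : (m : ℝ) ≤ x := by exact_mod_cast (show m ≤ x by omega)
        simp only [Nat.cast_one, Real.logb_one, add_zero]
        linarith)
    have e : Pool.Agent.L0h33.LU.GG v a = 2 ^ v * ((a : ℝ) ^ 2 - 1) := rfl
    simpa [e] using h
  · intro T p v c b hT hT2 hp hc X hX
    obtain ⟨q, hq, hpq⟩ := hother T p hT2
    exact Pool.Agent.L0h33.LU.units hT hp hq hpq hc X hX _ (by
      intro u hu
      rw [mem_filter, mem_Icc] at hu
      exact ⟨hu.1.1, hu.1.2, hu.2.1, hleh _ hu.2.2⟩)
  · intro β c b hc hb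
    refine ⟨?_, ?_⟩
    · intro a ha heven x
      exact Pool.Agent.L0h33.LU.even_base ha (even_iff_two_dvd.1 heven) hc hb _ (by
        intro m hm
        exact hleh _ (mem_filter.1 hm).2)
    · intro T p hT hT2 hp hp2 X hX
      obtain ⟨q, hq, hpq⟩ := hother (T.erase 2) p hT2
      rw [mem_erase] at hq
      exact Pool.Agent.L0h33.LU.units_even hT hp hq.2 hp2 hq.1 hpq hc hb X hX _ (by
        intro u hu
        rw [mem_filter, mem_Icc] at hu
        exact ⟨hu.1.1, hu.1.2, hu.2.1, hleh _ hu.2.2⟩)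

end Pool.Agent.Results.MP_b50d59_nt.ShiftedUnits
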